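import Pool.Agent.T2h61.PV.Stm

/-!
# PV-BDV: groups of matrices with bounded denominators (helper7, for project PV of helper61)
-/

set_option autoImplicit false
set_option linter.all false

namespace Pool.Agent.T2h61.PV.BDV

open WithZero
open Pool.Agent.Y110.FJ (ClosedE)
open Pool.Agent.T2h61.PL
open Pool.Agent.T2h61.PN
open Pool.Agent.T2h61.PV
open Pool.Agent.T2h61.RF (RFD)

section fin

variable {k A K : Type} [Field k] [CommRing A] [IsDomain A] [Algebra k A] [Field K] [Algebra A K]
  [IsFractionRing A K]

/-- multiplication by a nonzero element of `A` -/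
theorem mu_inj {s : A} (hs : s ≠ 0) {m m' : Matrix (Fin 2) (Fin 2) K}
    (h : ∀ i j, algebraMap A K s * m i j = algebraMap A K s * m' i j) : m = m' := by
  have h0 : algebraMap A K s ≠ 0 := fun e => hs (IsFractionRing.injective A K (by rw [e, map_zero]))
  ext i j
  exact mul_left_cancel₀ h0 (h i j)

/-- a submodule of the module of the matrices with the denominator `s` is finite -/
theorem fg_of_den [IsNoetherianRing A] {s : A} (hs : s ≠ 0)
    (N : Submodule A (Matrix (Fin 2) (Fin 2) K))
    (hN : ∀ m ∈ N, ∀ i j, ∃ r : A, algebraMap A K s * m i j = algebraMap A K r) : N.FG := by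
  let g : (Fin 2 → Fin 2 → A) →ₗ[A] Matrix (Fin 2) (Fin 2) K :=
    { toFun := fun B => Matrix.of fun i j => algebraMap A K (B i j)
      map_add' := fun B B' => by ext i j; simp
      map_smul' := fun a B => by ext i j; simp [Algebra.smul_def] }
  let μ : Matrix (Fin 2) (Fin 2) K →ₗ[A] Matrix (Fin 2) (Fin 2) K := LinearMap.lsmul A _ s
  have hμ : ∀ m i j, μ m i j = algebraMap A K s * m i j := fun m i j => by
    change (s • m) i j = _
    rw [Matrix.smul_apply, Algebra.smul_def]
  have hinj : Function.Injective μ := fun m m' h => mu_inj hs fun i j => by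
    rw [← hμ, ← hμ, h]
  have h1 : N.map μ ≤ LinearMap.range g := by
    rintro _ ⟨m, hm, rfl⟩
    choose r hr using hN m hm
    refine ⟨r, ?_⟩
    ext i j
    rw [hμ, hr]
    rfl
  have h2 : (N.map μ).FG := by
    have h3 : IsNoetherian A (LinearMap.range g) := inferInstance
    have h4 := Submodule.FG.of_le (h3.noetherian ⊤ |>.map (LinearMap.range g).subtype)
      (show N.map μ ≤ _ by rw [Submodule.map_subtype_top]; exact h1)
    exact h4
  exact Submodule.fg_of_fg_map_injective μ hinj h2

end fin

/-- the algebra spanned by a group of matrices with bounded denominators -/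
theorem exists_alg {A K : Type} [CommRing A] [Field K] [Algebra A K]
    (H : Subgroup (Matrix.GeneralLinearGroup (Fin 2) K)) (s : A)
    (hden : ∀ h ∈ H, ∀ i j, ∃ r : A,
      algebraMap A K s * (h : Matrix (Fin 2) (Fin 2) K) i j = algebraMap A K r) :
    ∃ Lam : Subalgebra A (Matrix (Fin 2) (Fin 2) K),
      (∀ h ∈ H, (h : Matrix (Fin 2) (Fin 2) K) ∈ Lam) ∧
      ∀ m ∈ Subalgebra.toSubmodule Lam, ∀ i j, ∃ r : A, algebraMap A K s * m i j = algebraMap A K r := by
  obtain ⟨S, hS⟩ : ∃ S : Submonoid (Matrix (Fin 2) (Fin 2) K),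
    S = H.toSubmonoid.map (Units.coeHom (Matrix (Fin 2) (Fin 2) K)) := ⟨_, rfl⟩
  have hHS : ∀ h ∈ H, (h : Matrix (Fin 2) (Fin 2) K) ∈ S := fun h hh => by
    rw [hS]
    exact ⟨h, hh, rfl⟩
  have hSd : ∀ m ∈ S, ∀ i j, ∃ r : A, algebraMap A K s * m i j = algebraMap A K r := by
    intro m hm
    rw [hS] at hm
    obtain ⟨h, hh, rfl⟩ := hm
    exact hden h hh
  refine ⟨Algebra.adjoin A (S : Set (Matrix (Fin 2) (Fin 2) K)),
    fun h hh => Algebra.subset_adjoin (hHS h hh), ?_⟩
  rw [Algebra.adjoin_eq_span, Submonoid.closure_eq]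
  intro m hm
  induction hm using Submodule.span_induction with
  | mem x hx => exact hSd x hx
  | zero => exact fun i j => ⟨0, by rw [Matrix.zero_apply, mul_zero, map_zero]⟩
  | add x y _ _ hx hy =>
    intro i j
    obtain ⟨a, ha⟩ := hx i j
    obtain ⟨b, hb⟩ := hy i j
    exact ⟨a + b, by rw [Matrix.add_apply, mul_add, ha, hb, map_add]⟩
  | smul c x _ hx =>
    intro i j
    obtain ⟨a, ha⟩ := hx i j
    exact ⟨c * a, by rw [Matrix.smul_apply, Algebra.smul_def, mul_left_comm, ha, map_mul]⟩

theorem t_BDV : S_BDV := by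
  intro hRFO hORU hUNV C hC k A K _ _ _ _ _ _ _ _ hGL v hv H s hs hden hdet
  have hnoeth : IsNoetherianRing A := Algebra.FiniteType.isNoetherianRing k A
  letI : Algebra k K := ((algebraMap A K).comp (algebraMap k A)).toAlgebra
  haveI : IsScalarTower k A K := IsScalarTower.of_algebraMap_eq fun _ => rfl
  obtain ⟨Lam, hHL, hLden⟩ := exists_alg H s hden
  have hfin : Module.Finite A Lam := by
    have h1 : (Subalgebra.toSubmodule Lam).FG := fg_of_den hs _ hLden
    exact Module.Finite.iff_fg.2 h1
  have hRFD : RFD k Lam := hRFO k A Lam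
  -- the group as a group of units
  let g : H →* Lam :=
    { toFun := fun h => ⟨((h : Matrix.GeneralLinearGroup (Fin 2) K) : Matrix (Fin 2) (Fin 2) K), hHL h h.2⟩
      map_one' := rfl
      map_mul' := fun a b => rfl }
  have hg : ∀ h : H, ((g h : Lam) : Matrix (Fin 2) (Fin 2) K) =
      ((h : Matrix.GeneralLinearGroup (Fin 2) K) : Matrix (Fin 2) (Fin 2) K) := fun h => rfl
  have hginj : Function.Injective g.toHomUnits := by
    intro a b hab
    have h1 : g a = g b := congrArg Units.val hab
    have h2 := congrArg Subtype.val h1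
    rw [hg, hg] at h2
    exact Subtype.ext (Units.ext h2)
  have hsK : algebraMap A K s ≠ 0 := fun e => hs (IsFractionRing.injective A K (by rw [e, map_zero]))
  have hCr : C g.toHomUnits.range := by
    refine hORU C hC k Lam hRFD hGL K v hv.1 (Lam.val : Lam →+* Matrix (Fin 2) (Fin 2) K) _ ?_ ?_
    · rintro _ ⟨h, rfl⟩
      obtain ⟨u, hu⟩ := hdet h h.2
      change v ((g h : Lam) : Matrix (Fin 2) (Fin 2) K).det = 1
      rw [hg, hu]
      exact hUNV k A K v hv u
    · intro n
      have hvs : v (algebraMap A K s) ≠ 0 := (Valuation.ne_zero_iff v).2 hsK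
      obtain ⟨n', hn'⟩ : ∃ n' : ℤ, v (algebraMap A K s) * exp n ≤ exp n' := by
        refine ⟨log (v (algebraMap A K s) * exp n), ?_⟩
        rw [exp_log (mul_ne_zero hvs exp_ne_zero)]
      obtain ⟨W', hW', hW'2⟩ := hv.2.2 n'
      let gw : (Fin 2 → Fin 2 → W') →ₗ[k] Matrix (Fin 2) (Fin 2) K :=
        { toFun := fun B => Matrix.of fun i j => algebraMap A K (B i j)
          map_add' := fun B B' => by ext i j; simp
          map_smul' := fun a B => by
            ext i j
            simp [Algebra.smul_def]
            exact Or.inl rfl }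
      let μ : Lam →ₗ[k] Matrix (Fin 2) (Fin 2) K :=
        { toFun := fun m => s • (m : Matrix (Fin 2) (Fin 2) K)
          map_add' := fun B B' => by simp
          map_smul' := fun a B => by
            change s • (a • (B : Matrix (Fin 2) (Fin 2) K)) = a • (s • (B : Matrix (Fin 2) (Fin 2) K))
            rw [smul_comm] }
      have hμ : ∀ (m : Lam) i j, μ m i j = algebraMap A K s * (m : Matrix (Fin 2) (Fin 2) K) i j :=
        fun m i j => by
        change (s • (m : Matrix (Fin 2) (Fin 2) K)) i j = _
        rw [Matrix.smul_apply, Algebra.smul_def]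
      have hμi : Function.Injective μ := fun m m' h => Subtype.ext (mu_inj hs fun i j => by
        rw [← hμ, ← hμ, h])
      refine ⟨(LinearMap.range gw).comap μ, ?_, ?_⟩
      · have h1 : FiniteDimensional k (LinearMap.range gw) := inferInstance
        refine Module.Finite.of_injective
          (μ.restrict (p := (LinearMap.range gw).comap μ) (q := LinearMap.range gw) fun x hx => hx) ?_
        intro x y hxy
        exact Subtype.ext (hμi (congrArg Subtype.val hxy))
      · rintro _ ⟨h, rfl⟩ hb
        have hd := hden h h.2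
        choose r hr using hd
        have hb' : ∀ i j, v (((h : Matrix.GeneralLinearGroup (Fin 2) K) : Matrix (Fin 2) (Fin 2) K) i j) ≤
            exp n := hb
        have hrW : ∀ i j, r i j ∈ W' := by
          intro i j
          apply hW'2
          rw [← hr, map_mul]
          exact (mul_le_mul_right (hb' i j) _).trans hn'
        refine ⟨fun i j => ⟨r i j, hrW i j⟩, ?_⟩
        ext i j
        rw [hμ]
        exact (hr i j).symm
  exact hC.base.of_injective _ _ g.toHomUnits.rangeRestrict
    (fun a b hab => hginj (congrArg Subtype.val hab)) hCr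

end Pool.Agent.T2h61.PV.BDV
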