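import Pool.Agent.T2h61.PV.Stm
import Pool.Agent.T2h61.GT.Crit

/-!
# ORU: groups of units of residually finite-dimensional algebras
-/

set_option autoImplicit false

namespace Pool.Agent.T2h61.PV.ORU

open WithZero Matrix
open Pool.Agent.Y110.FJ (ClosedE)
open Pool.Agent.T2h61.RF (RFD)
open Pool.Agent.T2h61.PV

theorem t_ORU : S_ORU := by
  intro C hC k L _ _ _ hrfd hk K _ v hπ ρ H hdet hb
  refine Pool.Agent.T2h61.GT.crit (v := v) hC hπ
    ((Units.map (ρ : L →* Matrix (Fin 2) (Fin 2) K)).comp H.subtype) (fun h => ?_) (fun n => ?_)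
  · exact hdet _ h.2
  · obtain ⟨W, hW, h1⟩ := hb n
    obtain ⟨m, φ, hφ⟩ := hrfd (W ⊔ Submodule.span k {(1 : L)}) inferInstance
    refine ⟨GL (Fin m) k, inferInstance,
      (Units.map (φ : L →* Matrix (Fin m) (Fin m) k)).comp H.subtype, hk m, fun h hh hf => ?_⟩
    have h3 : φ ((h : Lˣ) : L) = 1 := congrArg Units.val hf
    have h4 : ((h : Lˣ) : L) ∈ W := h1 h h.2 hh
    have h5 : ((h : Lˣ) : L) - 1 = 0 := by
      refine hφ _ (Submodule.sub_mem _ (Submodule.mem_sup_left h4)
        (Submodule.mem_sup_right (Submodule.mem_span_singleton_self 1))) ?_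
      rw [map_sub, map_one, h3, sub_self]
    exact Subtype.ext (Units.ext (sub_eq_zero.1 h5))

end Pool.Agent.T2h61.PV.ORU
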