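import Pool.Agent.T2h61.PV.Stm
import Pool.Agent.T2h61.RF.T_RFC

/-!
# PV-RFO: finite algebras over finitely generated commutative algebras (helper7, for project PV of helper61)
-/

set_option autoImplicit false

namespace Pool.Agent.T2h61.PV.RFO

open Pool.Agent.T2h61.PV
open Pool.Agent.T2h61.RF (RFD)

theorem fin_quot (k A : Type) [Field k] [CommRing A] [Algebra k A] [Algebra.FiniteType k A]
    (m : Ideal A) [hm : m.IsMaximal] (i : ℕ) : Module.Finite k (A ⧸ m ^ i) := by
  have h1 : Algebra.FiniteType k (A ⧸ m ^ i) :=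
    Algebra.FiniteType.of_surjective (Ideal.Quotient.mkₐ k (m ^ i)) (Ideal.Quotient.mkₐ_surjective k _)
  rw [Module.finite_iff_krullDimLE_zero, Ring.krullDimLE_zero_iff]
  intro P hP
  have hc : (P.comap (Ideal.Quotient.mk (m ^ i))).IsPrime := Ideal.comap_isPrime _ _
  have h2 : m ≤ P.comap (Ideal.Quotient.mk (m ^ i)) := by
    apply hc.le_of_pow_le (n := i)
    intro x hx
    rw [Ideal.mem_comap, Ideal.Quotient.eq_zero_iff_mem.2 hx]
    exact P.zero_mem
  have h3 : m = P.comap (Ideal.Quotient.mk (m ^ i)) := hm.eq_of_le hc.ne_top h2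
  have h4 : P = (P.comap (Ideal.Quotient.mk (m ^ i))).map (Ideal.Quotient.mk (m ^ i)) :=
    (Ideal.map_comap_of_surjective _ Ideal.Quotient.mk_surjective P).symm
  rw [← h3] at h4
  rcases Ideal.map_eq_top_or_isMaximal_of_surjective (Ideal.Quotient.mk (m ^ i))
    Ideal.Quotient.mk_surjective hm with h5 | h5
  · rw [h5] at h4
    exact absurd h4 hP.ne_top
  · rw [h4]
    exact h5

section act

variable {k A L : Type} [Field k] [CommRing A] [Algebra k A] [Ring L] [Algebra A L] [Algebra k L]
  [IsScalarTower k A L]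

/-- the action on the quotient by a left ideal -/
noncomputable def act (N : Submodule A L) (hN : ∀ a : L, ∀ n ∈ N, a * n ∈ N) :
    L →ₐ[k] Module.End k (L ⧸ N) where
  toFun a := (N.mapQ N (LinearMap.mulLeft A a) (fun n hn => hN a n hn)).restrictScalars k
  map_one' := by
    refine LinearMap.ext fun x => ?_
    obtain ⟨y, rfl⟩ := Submodule.mkQ_surjective N x
    change Submodule.Quotient.mk (p := N) (1 * y) = Submodule.Quotient.mk (p := N) y
    rw [one_mul]
  map_mul' a b := by
    refine LinearMap.ext fun x => ?_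
    obtain ⟨y, rfl⟩ := Submodule.mkQ_surjective N x
    change Submodule.Quotient.mk (p := N) (a * b * y) = Submodule.Quotient.mk (p := N) (a * (b * y))
    rw [mul_assoc]
  map_zero' := by
    refine LinearMap.ext fun x => ?_
    obtain ⟨y, rfl⟩ := Submodule.mkQ_surjective N x
    change Submodule.Quotient.mk (p := N) (0 * y) = 0
    rw [zero_mul]
    rfl
  map_add' a b := by
    refine LinearMap.ext fun x => ?_
    obtain ⟨y, rfl⟩ := Submodule.mkQ_surjective N x
    change Submodule.Quotient.mk (p := N) ((a + b) * y) =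
      Submodule.Quotient.mk (p := N) (a * y) + Submodule.Quotient.mk (p := N) (b * y)
    rw [add_mul]
    rfl
  commutes' c := by
    refine LinearMap.ext fun x => ?_
    obtain ⟨y, rfl⟩ := Submodule.mkQ_surjective N x
    rw [Module.algebraMap_end_apply]
    change Submodule.Quotient.mk (p := N) (algebraMap k L c * y) = c • Submodule.Quotient.mk (p := N) y
    rw [← Algebra.smul_def]
    rfl

end act

theorem t_RFO : S_RFO := by
  intro k A L _ _ _ _ _ _ _ _ _
  refine Pool.Agent.T2h61.RF.RFC.t_RFC k L fun x hx => ?_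
  have hnoeth : IsNoetherianRing A := Algebra.FiniteType.isNoetherianRing k A
  have hne : Ideal.torsionOf A L x ≠ ⊤ := by
    intro h
    have h1 : (1 : A) ∈ Ideal.torsionOf A L x := by rw [h]; exact Submodule.mem_top
    rw [Ideal.mem_torsionOf_iff, one_smul] at h1
    exact hx h1
  obtain ⟨m, hm, hle⟩ := Ideal.exists_le_maximal _ hne
  obtain ⟨i, hi⟩ : ∃ i : ℕ, x ∉ (m ^ i • ⊤ : Submodule A L) := by
    by_contra hcon
    push Not at hcon
    have h1 : x ∈ (⨅ i : ℕ, m ^ i • ⊤ : Submodule A L) := (Submodule.mem_iInf _).2 hcon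
    obtain ⟨r, hr⟩ := (Ideal.mem_iInf_smul_pow_eq_bot_iff m x).1 h1
    have h2 : (1 - (r : A)) ∈ Ideal.torsionOf A L x := by
      rw [Ideal.mem_torsionOf_iff, sub_smul, one_smul, hr, sub_self]
    have h3 : (1 : A) ∈ m := by
      have := m.add_mem (hle h2) r.2
      rwa [sub_add_cancel] at this
    exact hm.ne_top ((Ideal.eq_top_iff_one m).2 h3)
  obtain ⟨N, hNdef⟩ : ∃ N : Submodule A L, N = m ^ i • ⊤ := ⟨_, rfl⟩
  have hN : ∀ a : L, ∀ n ∈ N, a * n ∈ N := by
    intro a n hn
    rw [hNdef] at hn ⊢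
    refine Submodule.smul_induction_on hn (fun r hr l _ => ?_) (fun y z hy hz => ?_)
    · rw [mul_smul_comm]
      exact Submodule.smul_mem_smul hr Submodule.mem_top
    · rw [mul_add]
      exact Submodule.add_mem _ hy hz
  have hfin : Module.Finite k (L ⧸ N) := by
    rw [hNdef]
    have h1 := fin_quot k A m i
    have h2 : IsScalarTower k (A ⧸ m ^ i) (L ⧸ (m ^ i • ⊤ : Submodule A L)) := by
      refine ⟨fun c a y => ?_⟩
      obtain ⟨a, rfl⟩ := Ideal.Quotient.mk_surjective a
      obtain ⟨y, rfl⟩ := Submodule.Quotient.mk_surjective _ y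
      change Submodule.Quotient.mk ((c • a) • y) = c • Submodule.Quotient.mk (a • y)
      rw [smul_assoc]
      rfl
    exact Module.Finite.trans (A ⧸ m ^ i) _
  have hfree : Module.Free k (L ⧸ N) := inferInstance
  refine ⟨Module.finrank k (L ⧸ N),
    ((LinearMap.toMatrixAlgEquiv (Module.finBasis k (L ⧸ N))).toAlgHom).comp (act N hN), fun h => ?_⟩
  have h1 : act (k := k) N hN x = 0 :=
    (LinearMap.toMatrixAlgEquiv (Module.finBasis k (L ⧸ N))).injective (h.trans (map_zero _).symm)
  have h2 := LinearMap.congr_fun h1 (Submodule.Quotient.mk 1)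
  change Submodule.Quotient.mk (x * 1) = 0 at h2
  rw [mul_one, Submodule.Quotient.mk_eq_zero] at h2
  rw [hNdef] at h2
  exact hi h2

end Pool.Agent.T2h61.PV.RFO
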