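import Pool.Agent.T2h61.PV.Stm

/-! Task UNV: the units have the value one. -/

set_option autoImplicit false

namespace Pool.Agent.T2h61.PV.UNV

open WithZero

section

variable {k A K : Type} [Field k] [CommRing A] [Algebra k A] [Field K] [Algebra A K]

theorem v_const {v : Valuation K ℤᵐ⁰} (h : OnePlace k A K v) (c : k) :
    v (algebraMap A K (algebraMap k A c)) ≤ 1 := by
  by_cases hc : c = 0
  · rw [hc, map_zero, map_zero, map_zero]
    exact zero_le_one
  · exact (h.2.1 c hc).le

theorem v_aeval {v : Valuation K ℤᵐ⁰} (h : OnePlace k A K v) {u : A}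
    (hu : v (algebraMap A K u) ≤ 1) (p : Polynomial k) :
    v (algebraMap A K (Polynomial.aeval u p)) ≤ 1 := by
  induction p using Polynomial.induction_on with
  | C a =>
    rw [Polynomial.aeval_C]
    exact v_const h a
  | add p q hp hq =>
    rw [map_add, map_add]
    exact (v.map_add _ _).trans (max_le hp hq)
  | monomial i a _ =>
    rw [map_mul, Polynomial.aeval_C, map_pow, Polynomial.aeval_X, map_mul, map_pow, map_mul, map_pow]
    exact mul_le_one' (v_const h a) (pow_le_one' hu _)

theorem one_le [IsDomain A] [IsFractionRing A K] {v : Valuation K ℤᵐ⁰} (h : OnePlace k A K v)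
    (u : Aˣ) (hu : v (algebraMap A K u) ≤ 1) : 1 ≤ v (algebraMap A K u) := by
  obtain ⟨W, hW, hmem⟩ := h.2.2 0
  have hle : Subalgebra.toSubmodule (Algebra.adjoin k {(u : A)}) ≤ W := by
    intro a ha
    rw [Subalgebra.mem_toSubmodule, Algebra.adjoin_singleton_eq_range_aeval] at ha
    obtain ⟨p, rfl⟩ := ha
    exact hmem _ (by rw [exp_zero]; exact v_aeval h hu p)
  have hfd : FiniteDimensional k (Subalgebra.toSubmodule (Algebra.adjoin k {(u : A)})) :=
    Submodule.finiteDimensional_of_le hle
  have hint : IsIntegral k (u : A) := IsIntegral.of_mem_of_fg (Algebra.adjoin k {(u : A)})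
    (Module.Finite.iff_fg.1 hfd) _ (Algebra.self_mem_adjoin_singleton k (u : A))
  have hc : (minpoly k (u : A)).coeff 0 ≠ 0 := minpoly.coeff_zero_ne_zero hint u.ne_zero
  have e : (u : A) * Polynomial.aeval (u : A) (minpoly k (u : A)).divX =
      - algebraMap k A ((minpoly k (u : A)).coeff 0) := by
    have h1 := minpoly.aeval k (u : A)
    rw [← Polynomial.X_mul_divX_add (minpoly k (u : A)), map_add, map_mul, Polynomial.aeval_X,
      Polynomial.aeval_C] at h1
    exact eq_neg_of_add_eq_zero_left h1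
  have h2 := congrArg (fun a => v (algebraMap A K a)) e
  simp only [map_mul, map_neg, Valuation.map_neg, h.2.1 _ hc] at h2
  calc (1 : ℤᵐ⁰) = v (algebraMap A K u) *
      v (algebraMap A K (Polynomial.aeval (u : A) (minpoly k (u : A)).divX)) := h2.symm
    _ ≤ v (algebraMap A K u) * 1 := mul_le_mul_right (v_aeval h hu _) _
    _ = v (algebraMap A K u) := mul_one _

end

theorem t_UNV : S_UNV := by
  intro k A K _ _ _ _ _ _ _ v h u
  rcases le_or_gt (v (algebraMap A K u)) 1 with h1 | h1
  · exact le_antisymm h1 (one_le h u h1)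
  · exfalso
    have e : v (algebraMap A K u) * v (algebraMap A K (u⁻¹ : Aˣ)) = 1 := by
      rw [← map_mul, ← map_mul, Units.mul_inv, map_one, map_one]
    have h2 : v (algebraMap A K (u⁻¹ : Aˣ)) ≤ 1 := by
      by_contra h3
      rw [not_le] at h3
      have h4 : (1 : ℤᵐ⁰) < v (algebraMap A K u) * v (algebraMap A K (u⁻¹ : Aˣ)) :=
        one_lt_mul'' h1 h3
      rw [e] at h4
      exact lt_irrefl _ h4
    have h3 := one_le h u⁻¹ h2
    have h4 : (1 : ℤᵐ⁰) < v (algebraMap A K u) * v (algebraMap A K (u⁻¹ : Aˣ)) :=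
      lt_of_lt_of_le h1 (le_mul_of_one_le_right' h3)
    rw [e] at h4
    exact lt_irrefl _ h4

end Pool.Agent.T2h61.PV.UNV
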