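import Pool.Agent.T2h61.PV.Stm

/-!
# PV-VTB: the vertex groups of affine type (after T_VTA of helper58)
-/

set_option autoImplicit false

namespace Pool.Agent.T2h61.PV.VTB

open MvPolynomial
open Pool.Agent.Y110.FJ (ClosedE)
open Pool.Agent.T2h61.PL
open Pool.Agent.T2h61.PN
open Pool.Agent.T2h61.PV

theorem t_VTB : S_VTB := by
  intro hRFO hORU hUNV hBDV hDEN hDET hLIN hGRP C hC hM k A K _ _ _ _ _ _ _ _ hGL v hv g H hH hint
  obtain ⟨L, hL, hker⟩ := hLIN hGRP K
  obtain ⟨s, hs0, hs⟩ := hDEN A K g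
  have haff : ∀ a ∈ H, IsAff (⊤ : Subfield K) a :=
    fun a ha => (((hGRP _ _).1 a).1 (hH ha)).1
  set L' : H →* Matrix.GeneralLinearGroup (Fin 2) K := L.comp (Subgroup.inclusion hH) with hL'
  have hent : ∀ (a : H) (i j : Fin 2), (L' a : Matrix (Fin 2) (Fin 2) _) i j =
      coeff (Finsupp.single i 1) ((a : Au K) (X j)) :=
    fun a i j => hL (Subgroup.inclusion hH a) i j
  have hQ : C L'.range := by
    refine hBDV hRFO hORU hUNV C hC k A K hGL v hv L'.range s hs0 ?_ ?_
    · rintro _ ⟨a, rfl⟩ i j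
      rw [hent]
      exact hs a (haff a a.2) (hint a a.2) i j
    · rintro _ ⟨a, rfl⟩
      obtain ⟨u, hu⟩ := hDET A K g a (haff a a.2) (hint a a.2) (hint _ (inv_mem a.2))
      refine ⟨u, ?_⟩
      rw [Matrix.det_fin_two, hent, hent, hent, hent, hu]
  refine Pool.Agent.T2h61.GT.C_abext hC hM L'.rangeRestrict hQ ?_
  intro x y hx hy
  have h1 : L (Subgroup.inclusion hH x) = 1 := congrArg Subtype.val hx
  have h2 : L (Subgroup.inclusion hH y) = 1 := congrArg Subtype.val hy
  have h3 := hker _ _ h1 h2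
  rw [← map_mul, ← map_mul] at h3
  exact Subgroup.inclusion_injective hH h3

end Pool.Agent.T2h61.PV.VTB
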