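import Pool.Agent.T2h61.RF.Stm
import Pool.Agent.T2h61.PN.Stm

/-!
# Affine varieties with an irreducible boundary: statements of the tasks

Owner helper61.
-/

set_option autoImplicit false

namespace Pool.Agent.T2h61.PV

open WithZero
open Pool.Agent.Y110.FJ (ClosedE)
open Pool.Agent.T2h61.PL
open Pool.Agent.T2h61.PN
open Pool.Agent.T2h61.RF (RFD)

/-- `A` is a domain over the field `k` with the field of fractions `K`, `v` is a discrete valuation of `K`,
trivial on `k`, such that the elements of `A` of bounded value form finite-dimensional spaces -/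
def OnePlace (k A K : Type) [Field k] [CommRing A] [Algebra k A] [Field K] [Algebra A K]
    (v : Valuation K ℤᵐ⁰) : Prop :=
  (∃ π : K, v π = exp (-1 : ℤ)) ∧ (∀ c : k, c ≠ 0 → v (algebraMap A K (algebraMap k A c)) = 1) ∧
    ∀ n : ℤ, ∃ W : Submodule k A, FiniteDimensional k W ∧
      ∀ a : A, v (algebraMap A K a) ≤ exp n → a ∈ W

/-- **RFO** (100 lines). Finite algebras over finitely generated commutative algebras are residually
finite-dimensional. -/
def S_RFO : Prop := ∀ (k A L : Type) [Field k] [CommRing A] [Algebra k A] [Algebra.FiniteType k A]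
  [Ring L] [Algebra A L] [Algebra k L] [IsScalarTower k A L] [Module.Finite A L], RFD k L

/-- **ORU** (80 lines). Groups of units of residually finite-dimensional algebras which act on the tree of a
discretely valued field. -/
def S_ORU : Prop := ∀ (C : ∀ (G : Type) [Group G], Prop), ClosedE C →
  ∀ (k L : Type) [Field k] [Ring L] [Algebra k L], RFD k L →
  (∀ n, C (Matrix.GeneralLinearGroup (Fin n) k)) →
  ∀ (K : Type) [Field K] (v : Valuation K ℤᵐ⁰), (∃ π : K, v π = exp (-1 : ℤ)) →
  ∀ (ρ : L →+* Matrix (Fin 2) (Fin 2) K) (H : Subgroup Lˣ),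
  (∀ h ∈ H, v (ρ (h : L)).det = 1) →
  (∀ n : ℤ, ∃ W : Submodule k L, FiniteDimensional k W ∧
    ∀ h ∈ H, (∀ i j, v (ρ (h : L) i j) ≤ exp n) → (h : L) ∈ W) → C H

/-- **UNV** (60 lines). The units have the value one. -/
def S_UNV : Prop := ∀ (k A K : Type) [Field k] [CommRing A] [IsDomain A] [Algebra k A] [Field K]
  [Algebra A K] [IsFractionRing A K] (v : Valuation K ℤᵐ⁰), OnePlace k A K v →
  ∀ u : Aˣ, v (algebraMap A K u) = 1

/-- **BDV** (150 lines). Groups of matrices with bounded denominators. -/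
def S_BDV : Prop := S_RFO → S_ORU → S_UNV → ∀ (C : ∀ (G : Type) [Group G], Prop), ClosedE C →
  ∀ (k A K : Type) [Field k] [CommRing A] [IsDomain A] [Algebra k A] [Algebra.FiniteType k A]
    [Field K] [Algebra A K] [IsFractionRing A K], (∀ n, C (Matrix.GeneralLinearGroup (Fin n) k)) →
  ∀ v : Valuation K ℤᵐ⁰, OnePlace k A K v →
  ∀ (H : Subgroup (Matrix.GeneralLinearGroup (Fin 2) K)) (s : A), s ≠ 0 →
  (∀ h ∈ H, ∀ i j, ∃ r : A, algebraMap A K s * (h : Matrix (Fin 2) (Fin 2) K) i j = algebraMap A K r) →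
  (∀ h ∈ H, ∃ u : Aˣ, (h : Matrix (Fin 2) (Fin 2) K).det = algebraMap A K u) → C H

/-- **VTB** (80 lines). The vertex groups of affine type. -/
def S_VTB : Prop := S_RFO → S_ORU → S_UNV → S_BDV → S_DEN → S_DET → S_LIN → S_GRP →
  ∀ (C : ∀ (G : Type) [Group G], Prop), ClosedE C →
  (∀ (G : Type) [Group G], derivedSeries G 2 = ⊥ → C G) →
  ∀ (k A K : Type) [Field k] [CommRing A] [IsDomain A] [Algebra k A] [Algebra.FiniteType k A]
    [Field K] [Algebra A K] [IsFractionRing A K], (∀ n, C (Matrix.GeneralLinearGroup (Fin n) k)) →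
  ∀ v : Valuation K ℤᵐ⁰, OnePlace k A K v →
  ∀ (g : Au K) (H : Subgroup (Au K)), H ≤ affS (⊤ : Subfield K) →
  (∀ h ∈ H, IntA A (g * h * g⁻¹)) → C H

end Pool.Agent.T2h61.PV
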