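import Pool.Agent.T2h61.PN.Fin
import Pool.Agent.T2h61.PN.T_EMB
import Pool.Agent.T2h61.PN.T_DEN
import Pool.Agent.T2h61.PV.Stm

/-!
# Assembly of project PV
-/

set_option autoImplicit false

namespace Pool.Agent.T2h61.PV

open Matrix
open Pool.Agent.Y110.FJ (ClosedE)
open Pool.Agent.N509.TX (AcylF)
open Pool.Agent.T2h61.PL
open Pool.Agent.T2h61.PN

variable {C : ∀ (G : Type) [Group G], Prop}

theorem gl (hRFO : S_RFO) (hORU : S_ORU) (hUNV : S_UNV) (hBDV : S_BDV) (hC : ClosedE C)
    (k A K : Type) [Field k] [CommRing A] [IsDomain A] [Algebra k A] [Algebra.FiniteType k A]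
    [Field K] [Algebra A K] [IsFractionRing A K] (hk : ∀ n, C (GL (Fin n) k))
    (v : Valuation K (WithZero (Multiplicative ℤ))) (hv : OnePlace k A K v) : C (GL (Fin 2) A) := by
  have hinj : Function.Injective (GeneralLinearGroup.map (n := Fin 2) (algebraMap A K)) := by
    intro g h hgh
    apply Units.ext
    ext i j
    have h1 := congrArg (fun g : GL (Fin 2) K => (g : Matrix (Fin 2) (Fin 2) K) i j) hgh
    exact IsFractionRing.injective A K h1
  refine Pool.Agent.R941.FJ.C_equiv hC.base (MonoidHom.ofInjective hinj) ?_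
  refine hBDV hRFO hORU hUNV C hC k A K hk v hv _ 1 one_ne_zero ?_ ?_
  · rintro _ ⟨g, rfl⟩ i j
    refine ⟨(g : Matrix (Fin 2) (Fin 2) A) i j, ?_⟩
    rw [map_one, one_mul]
    rfl
  · rintro _ ⟨g, rfl⟩
    refine ⟨GeneralLinearGroup.det g, ?_⟩
    have h1 : ((GeneralLinearGroup.map (algebraMap A K) g : GL (Fin 2) K) :
        Matrix (Fin 2) (Fin 2) K) = (algebraMap A K).mapMatrix (g : Matrix (Fin 2) (Fin 2) A) := rfl
    rw [h1, ← RingHom.map_det]
    rfl

theorem aut (hRFO : S_RFO) (hORU : S_ORU) (hUNV : S_UNV) (hBDV : S_BDV) (hVTB : S_VTB)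
    (hC : ClosedE C) (hM : ∀ (G : Type) [Group G], derivedSeries G 2 = ⊥ → C G) (hA : AcylF C)
    (k A K : Type) [Field k] [CharZero k] [CommRing A] [IsDomain A] [Algebra k A]
    [Algebra.FiniteType k A] [Field K] [Algebra A K] [IsFractionRing A K]
    (hk : ∀ n, C (GL (Fin n) k)) (v : Valuation K (WithZero (Multiplicative ℤ)))
    (hv : OnePlace k A K v) : C (Aut2 A) := by
  have hch : CharZero A := charZero_of_injective_algebraMap (algebraMap k A).injective
  -- transport the valuation to the standard field of fractions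
  let e : FractionRing A ≃ₐ[A] K := FractionRing.algEquiv A K
  have hv' : OnePlace k A (FractionRing A) (v.comap (e : FractionRing A →+* K)) := by
    obtain ⟨⟨π, hπ⟩, h1, h2⟩ := hv
    refine ⟨⟨e.symm π, ?_⟩, fun c hc => ?_, fun n => ?_⟩
    · show v (e (e.symm π)) = _
      rw [e.apply_symm_apply, hπ]
    · show v (e (algebraMap A _ _)) = 1
      rw [e.commutes]
      exact h1 c hc
    · obtain ⟨W, hW, h3⟩ := h2 n
      refine ⟨W, hW, fun a ha => h3 a ?_⟩
      have h4 : v (e (algebraMap A (FractionRing A) a)) ≤ _ := ha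
      rw [e.commutes] at h4
      exact h4
  exact aut_ring hC hM hA EMB.t_EMB A fun g H hH hI =>
    hVTB hRFO hORU hUNV hBDV DEN.t_DEN DET.t_DET LIN.t_LIN t_GRP C hC hM k A (FractionRing A) hk _
      hv' g H hH hI

end Pool.Agent.T2h61.PV
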